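import Mathlib

set_option autoImplicit false

open Polynomial

namespace Pool.Agent.Results.MP_21e947_nt.Counterexample

/-- The quadrinomial `x^45 + x^43 + x^42 - 2^42/3^45` has the double root `-2/3`. -/
theorem result :
    ∃ (a : ℚ) (n m k : ℕ), a ≠ 0 ∧ 1 ≤ k ∧ k < m ∧ m < n ∧
      (∃ θ : ℂ, 2 ≤ rootMultiplicity θ
        ((X ^ n + X ^ m + X ^ k + C a : ℚ[X]).map (algebraMap ℚ ℂ))) ∧
      a ≠ 1 ∧
      ¬ ∃ d t u : ℕ, 1 ≤ d ∧ Odd t ∧ Odd u ∧ 1 ≤ u ∧ u < t ∧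
          n = d * (t + u) ∧ m = d * t ∧ k = d * u := by
  refine ⟨-(2 ^ 42 / 3 ^ 45), 45, 43, 42, by norm_num, by norm_num, by norm_num, by norm_num,
    ⟨-2 / 3, ?_⟩, by norm_num, ?_⟩
  · have hp : ((X ^ 45 + X ^ 43 + X ^ 42 + C (-(2 ^ 42 / 3 ^ 45) : ℚ) : ℚ[X]).map
        (algebraMap ℚ ℂ)) =
        (X ^ 45 + X ^ 43 + X ^ 42 + C (-(2 ^ 42 / 3 ^ 45) : ℂ) : ℂ[X]) := by
      simp only [Polynomial.map_add, Polynomial.map_pow, map_X, map_C]
      congr 2
      simp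
    rw [hp]
    have hne : (X ^ 45 + X ^ 43 + X ^ 42 + C (-(2 ^ 42 / 3 ^ 45) : ℂ) : ℂ[X]) ≠ 0 := by
      intro h
      have := congrArg (fun p : ℂ[X] => p.coeff 45) h
      simp [coeff_X_pow] at this
    have h1 : 1 < rootMultiplicity (-2 / 3 : ℂ)
        (X ^ 45 + X ^ 43 + X ^ 42 + C (-(2 ^ 42 / 3 ^ 45) : ℂ) : ℂ[X]) := by
      rw [one_lt_rootMultiplicity_iff_isRoot hne]
      constructor
      · simp only [IsRoot.def, eval_add, eval_pow, eval_X, eval_C]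
        norm_num
      · simp only [IsRoot.def, derivative_add, derivative_X_pow, derivative_C, eval_add, eval_mul,
          eval_pow, eval_X, eval_C, eval_zero]
        norm_num
    omega
  · rintro ⟨d, t, u, -, -, -, -, -, h1, h2, h3⟩
    have : d * (t + u) = d * t + d * u := by ring
    omega

end Pool.Agent.Results.MP_21e947_nt.Counterexample
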